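import Pool.Agent.K3h21.IR.Pnt
import Pool.Agent.W378.DC.MP


/-! Mertens' formula for the roots of an irreducible polynomial. -/

set_option autoImplicit false

namespace Pool.Agent.K3h21.IR

open Finset Polynomial Filter
open Pool.Agent.H474R2.PG (rho)
open Pool.Agent.W23.DC
open Pool.Agent.W378.DC.TMP

open Classical in
/-- the coefficients of the deviation -/
noncomputable def da (f : ℤ[X]) (n : ℕ) : ℝ := if n.Prime then (rho f n : ℝ) - 1 else 0

theorem Dev_succ (f : ℤ[X]) (n : ℕ) : Dev f (n + 1) = Dev f n + da f (n + 1) := by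
  unfold Dev da PN
  rw [range_add_one (n := n + 1), filter_insert]
  split_ifs with h
  · rw [sum_insert (by simp)]
    ring
  · simp

theorem harm_le (A B : ℕ) (hA : 1 ≤ A) (hAB : A ≤ B) :
    ∑ n ∈ Ioc A B, 1 / ((n : ℝ) + 1) ≤ Real.log B - Real.log A := by
  induction B, hAB using Nat.le_induction with
  | base => simp
  | succ B hAB ih =>
    rw [sum_Ioc_succ_top hAB]
    have hB : (1 : ℝ) ≤ B := by exact_mod_cast hA.trans hAB
    have h1 := Real.one_sub_inv_le_log_of_pos (x := ((B : ℝ) + 1) / B) (by positivity)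
    rw [Real.log_div (by positivity) (by positivity)] at h1
    have h2 : 1 / (((B + 1 : ℕ) : ℝ) + 1) ≤ 1 - (((B : ℝ) + 1) / B)⁻¹ := by
      push_cast
      rw [inv_div]
      have e : 1 - (B : ℝ) / (B + 1) = 1 / (B + 1) := by field_simp; ring
      rw [e]
      apply one_div_le_one_div_of_le (by positivity)
      linarith
    push_cast at h2 ⊢
    linarith

/-- the deviation of the densities from those of the primes -/
theorem dev_sum (f : ℤ[X]) (η' : ℝ) (hη' : 0 ≤ η') (N0 : ℕ)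
    (h0 : ∀ N : ℕ, N0 ≤ N → |Dev f N| ≤ η' * N / Real.log N) (A B : ℕ) (hA : N0 ≤ A) (hA3 : 3 ≤ A)
    (hAB : A ≤ B) :
    |∑ n ∈ Ioc A B, da f n / n| ≤ η' * (2 + Real.log B / Real.log A) := by
  have hlog3 : ∀ n : ℕ, 3 ≤ n → 1 ≤ Real.log n := by
    intro n hn
    have h1 : Real.exp 1 ≤ n := by
      have : (3 : ℝ) ≤ n := by exact_mod_cast hn
      linarith [Real.exp_one_lt_d9]
    rwa [Real.le_log_iff_exp_le (by linarith [Real.exp_pos 1])]
  rw [abel (da f) (Dev f) (Dev_succ f) A B hAB]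
  have hA1 : (3 : ℝ) ≤ A := by exact_mod_cast hA3
  have hAB' : (A : ℝ) ≤ B := by exact_mod_cast hAB
  have hlA : 1 ≤ Real.log A := hlog3 A hA3
  have hlAB : Real.log A ≤ Real.log B := Real.log_le_log (by linarith) hAB'
  have end_ : ∀ n : ℕ, A ≤ n → |Dev f n / (n + 1)| ≤ η' := by
    intro n hn
    have h1 := h0 n (hA.trans hn)
    have hn3 : (3 : ℝ) ≤ n := by exact_mod_cast hA3.trans hn
    have h2 := hlog3 n (hA3.trans hn)
    rw [abs_div, abs_of_pos (show (0 : ℝ) < (n : ℝ) + 1 by positivity), div_le_iff₀ (by positivity)]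
    refine h1.trans ?_
    calc η' * n / Real.log n ≤ η' * n := div_le_self (by positivity) h2
      _ ≤ _ := by nlinarith
  have mid : |∑ n ∈ Ioc A B, Dev f n / (n * (n + 1))| ≤ η' * (Real.log B / Real.log A) := by
    calc |∑ n ∈ Ioc A B, Dev f n / (n * (n + 1))| ≤ ∑ n ∈ Ioc A B, |Dev f n / (n * (n + 1))| :=
          abs_sum_le_sum_abs _ _
      _ ≤ ∑ n ∈ Ioc A B, η' / Real.log A * (1 / ((n : ℝ) + 1)) := by
          apply sum_le_sum
          intro n hn
          rw [mem_Ioc] at hn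
          have h1 := h0 n (hA.trans hn.1.le)
          have hn3 : (3 : ℝ) ≤ n := by exact_mod_cast hA3.trans hn.1.le
          have hln : Real.log A ≤ Real.log n := Real.log_le_log (by linarith) (by exact_mod_cast hn.1.le)
          rw [abs_div, abs_of_pos (show (0 : ℝ) < (n : ℝ) * ((n : ℝ) + 1) by positivity),
            div_le_iff₀ (by positivity)]
          refine h1.trans ?_
          calc η' * n / Real.log n ≤ η' * n / Real.log A :=
                div_le_div_of_nonneg_left (by positivity) (by linarith) hln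
            _ = η' / Real.log A * (1 / ((n : ℝ) + 1)) * (n * (n + 1)) := by
                field_simp
      _ = η' / Real.log A * ∑ n ∈ Ioc A B, 1 / ((n : ℝ) + 1) := by rw [mul_sum]
      _ ≤ η' / Real.log A * (Real.log B - Real.log A) :=
          mul_le_mul_of_nonneg_left (harm_le A B (by omega) hAB) (by positivity)
      _ ≤ η' / Real.log A * Real.log B := by
          apply mul_le_mul_of_nonneg_left _ (by positivity)
          linarith
      _ = _ := by ring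
  have e1 := end_ A le_rfl
  have e2 := end_ B hAB
  have h1 : |Dev f B / (B + 1) - Dev f A / (A + 1) + ∑ n ∈ Ioc A B, Dev f n / (n * (n + 1))| ≤
      |Dev f B / (B + 1)| + |Dev f A / (A + 1)| + |∑ n ∈ Ioc A B, Dev f n / (n * (n + 1))| := by
    refine (abs_add_le _ _).trans ?_
    have := abs_sub (Dev f B / (B + 1)) (Dev f A / (A + 1))
    linarith
  refine h1.trans ?_
  nlinarith

theorem sum_da (f : ℤ[X]) (A B : ℕ) : ∑ p ∈ (Ioc A B).filter Nat.Prime, (rho f p : ℝ) / p =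
    ∑ p ∈ (Ioc A B).filter Nat.Prime, 1 / (p : ℝ) + ∑ n ∈ Ioc A B, da f n / n := by
  classical
  have h1 : ∑ n ∈ Ioc A B, da f n / n = ∑ p ∈ (Ioc A B).filter Nat.Prime, ((rho f p : ℝ) - 1) / p := by
    rw [sum_filter]
    apply sum_congr rfl
    intro n _
    unfold da
    split_ifs
    · rfl
    · simp
  rw [h1, ← sum_add_distrib]
  apply sum_congr rfl
  intro p _
  ring

/-- the densities of an irreducible polynomial are regular -/
theorem mer_irr (f : ℤ[X]) (hf : Irreducible f) (hd : 0 < f.natDegree) (ε₁ υ η : ℝ) (hε : 0 < ε₁)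
    (hυ : υ ≤ 1) (hη : 0 < η) : ∃ Y0 : ℕ, ∀ Y : ℕ, Y0 ≤ Y →
      Mer (pr Y ε₁ υ) (tt Y) (fun p => (rho f p : ℝ) / p) ε₁ υ η := by
  classical
  obtain ⟨N1, hN1⟩ := Pool.Agent.W378.DC.MP ε₁ (η / 3) hε (by linarith)
  obtain ⟨η', hη'⟩ : ∃ η' : ℝ, η' = η / (3 * (2 + 2 / ε₁)) := ⟨_, rfl⟩
  have hη'0 : 0 < η' := by rw [hη']; positivity
  obtain ⟨N0, h0⟩ := dev_small f hf hd η' hη'0
  have ev1 : ∀ᶠ Y : ℕ in atTop, (max (N0 : ℝ) (3 / η)) + 4 ≤ (Y : ℝ) ^ ε₁ :=
    ((tendsto_rpow_atTop hε).comp tendsto_natCast_atTop_atTop).eventually_ge_atTop _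
  have ev3 : ∀ᶠ Y : ℕ in atTop, 2 ≤ (Y : ℝ) ^ (ε₁ / 2) :=
    ((tendsto_rpow_atTop (by linarith)).comp tendsto_natCast_atTop_atTop).eventually_ge_atTop _
  obtain ⟨Y1, hY1⟩ := eventually_atTop.1 (ev1.and (ev3.and (eventually_ge_atTop 3)))
  refine ⟨max N1 Y1, fun Y hY => ?_⟩
  obtain ⟨e1, e3, e4⟩ := hY1 Y ((le_max_right _ _).trans hY)
  have hYN1 : N1 ≤ Y := (le_max_left _ _).trans hY
  have hYr : (3 : ℝ) ≤ Y := by exact_mod_cast e4
  have hY0 : (0 : ℝ) < Y := by linarith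
  have hY1r : (1 : ℝ) < Y := by linarith
  intro u v hu huv hv
  have hv1 : v ≤ 1 := hv.trans hυ
  have hset : (pr Y ε₁ υ).filter (fun p => u ≤ tt Y p ∧ tt Y p < v) = pr Y u v := by
    ext p
    unfold pr
    rw [mem_filter, mem_filter, mem_filter]
    constructor
    · rintro ⟨⟨h1, h2, h3, h4⟩, h5, h6⟩
      exact ⟨h1, h2, h5, h6⟩
    · rintro ⟨h1, h2, h5, h6⟩
      exact ⟨⟨h1, h2, hu.trans h5, h6.trans_le hv⟩, h5, h6⟩
  rw [hset]
  have m1 := hN1 Y hYN1 u v hu huv hv1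
  rw [pr_eq (by omega) hv1] at m1 ⊢
  have hmono : (Y : ℝ) ^ u ≤ (Y : ℝ) ^ v := Real.rpow_le_rpow_of_exponent_le hY1r.le huv
  have hu' : (Y : ℝ) ^ ε₁ ≤ (Y : ℝ) ^ u := Real.rpow_le_rpow_of_exponent_le hY1r.le hu
  have hYv : (Y : ℝ) ^ v ≤ Y := by
    calc (Y : ℝ) ^ v ≤ (Y : ℝ) ^ (1 : ℝ) := Real.rpow_le_rpow_of_exponent_le hY1r.le hv1
      _ = Y := Real.rpow_one _
  have hAB : ⌈(Y : ℝ) ^ u⌉₊ - 1 ≤ ⌈(Y : ℝ) ^ v⌉₊ - 1 := Nat.sub_le_sub_right (Nat.ceil_mono hmono) 1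
  have hBY : ⌈(Y : ℝ) ^ v⌉₊ - 1 ≤ Y := by
    have : ⌈(Y : ℝ) ^ v⌉₊ ≤ Y := Nat.ceil_le.2 hYv
    omega
  have hAl : (Y : ℝ) ^ ε₁ - 1 ≤ ((⌈(Y : ℝ) ^ u⌉₊ - 1 : ℕ) : ℝ) := by
    have h1 := Nat.le_ceil ((Y : ℝ) ^ u)
    have h2 : 1 ≤ ⌈(Y : ℝ) ^ u⌉₊ := Nat.ceil_pos.2 (by positivity)
    rw [Nat.cast_sub h2]
    push_cast
    linarith
  set A := ⌈(Y : ℝ) ^ u⌉₊ - 1 with hA
  set B := ⌈(Y : ℝ) ^ v⌉₊ - 1 with hB
  have hAmax : max (N0 : ℝ) (3 / η) + 3 ≤ A := by linarith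
  have hAP : N0 ≤ A := by
    have : (N0 : ℝ) ≤ A := by linarith [le_max_left (N0 : ℝ) (3 / η)]
    exact_mod_cast this
  have hAη : 3 / η ≤ A := by linarith [le_max_right (N0 : ℝ) (3 / η)]
  have hA3r : (3 : ℝ) ≤ A := by
    have : (0 : ℝ) ≤ max (N0 : ℝ) (3 / η) := (Nat.cast_nonneg N0).trans (le_max_left _ _)
    linarith
  have hA3 : 3 ≤ A := by exact_mod_cast hA3r
  have m2 := shift_prime (A := A) (B := B) (by omega) hAB
  rw [Finset.sum_sub_distrib] at m2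
  rw [sum_da]
  have hlogA : ε₁ / 2 * Real.log Y ≤ Real.log A := by
    rw [← Real.log_rpow hY0]
    apply Real.log_le_log (by positivity)
    have h1 : (Y : ℝ) ^ ε₁ = (Y : ℝ) ^ (ε₁ / 2) * (Y : ℝ) ^ (ε₁ / 2) := by
      rw [← Real.rpow_add hY0]
      congr 1
      ring
    nlinarith
  have hlY : 0 < Real.log Y := Real.log_pos hY1r
  have hlA : 0 < Real.log A := lt_of_lt_of_le (by positivity) hlogA
  have hlB : Real.log B ≤ Real.log Y := by
    apply Real.log_le_log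
    · have : (A : ℝ) ≤ B := by exact_mod_cast hAB
      linarith
    · exact_mod_cast hBY
  have m4 : |∑ n ∈ Ioc A B, da f n / n| ≤ η / 3 := by
    refine (dev_sum f η' hη'0.le N0 h0 A B hAP hA3 hAB).trans ?_
    have h1 : Real.log B / Real.log A ≤ 2 / ε₁ := by
      rw [div_le_div_iff₀ hlA hε]
      nlinarith
    calc η' * (2 + Real.log B / Real.log A) ≤ η' * (2 + 2 / ε₁) :=
          mul_le_mul_of_nonneg_left (by linarith) hη'0.le
      _ = η / 3 := by
          rw [hη']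
          field_simp
  have m5 : 1 / (A : ℝ) ≤ η / 3 := by
    rw [div_le_iff₀ (by linarith)]
    rw [div_le_iff₀ hη] at hAη
    linarith
  obtain ⟨a1, a2⟩ := abs_le.1 m1
  obtain ⟨a3, a4⟩ := abs_le.1 m4
  rw [abs_le]
  constructor <;> linarith [m2.1, m2.2]

end Pool.Agent.K3h21.IR
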