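import Pool.Agent.K3h21.MK.Sq
import Pool.Agent.R498.MT.Inst

/-! Values of an irreducible polynomial divisible by the square of a large prime. -/

set_option autoImplicit false

namespace Pool.Agent.K3h21.IR

open Finset Polynomial Filter
open Pool.Agent.W23.DC
open Pool.Agent.Y882
open Pool.Agent.Y882.PX
open Pool.Agent.Y882.KW
open Pool.Agent.Y882.SI
open Pool.Agent.Y882.GW
open Pool.Agent.Y677.RSZ (rt)

theorem bez (f : ℤ[X]) (hf : Irreducible f) (hd : 0 < f.natDegree) :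
    ∃ (P Q : ℤ[X]) (R : ℤ), R ≠ 0 ∧ ∀ x : ℤ, f.eval x * P.eval x + f.derivative.eval x * Q.eval x = R := by
  have hprim : f.IsPrimitive := hf.isPrimitive hd.ne'
  have hirr : Irreducible (f.map (Int.castRingHom ℚ)) :=
    (IsPrimitive.Int.irreducible_iff_irreducible_map_cast hprim).1 hf
  have hinj : Function.Injective (Int.castRingHom ℚ) := RingHom.injective_int (Int.castRingHom ℚ)
  set F : ℚ[X] := f.map (Int.castRingHom ℚ) with hF
  have hsep : IsCoprime F F.derivative := hirr.separable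
  have hnF : F.natDegree = f.natDegree := natDegree_map_eq_of_injective hinj f
  have hdm : f.derivative.map (Int.castRingHom ℚ) = F.derivative := by
    rw [hF, derivative_map]
  have hnG : F.derivative.natDegree = f.derivative.natDegree := by
    rw [← hdm]
    exact natDegree_map_eq_of_injective hinj _
  obtain ⟨P, Q, -, -, hPQ⟩ := exists_mul_add_mul_eq_C_resultant f f.derivative
    (le_refl f.natDegree) (le_refl f.derivative.natDegree) (Or.inl hd.ne')
  refine ⟨P, Q, f.resultant f.derivative f.natDegree f.derivative.natDegree, ?_, ?_⟩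
  · intro h0
    have h1 := resultant_map_map f f.derivative f.natDegree f.derivative.natDegree (Int.castRingHom ℚ)
    rw [h0, map_zero, hdm, ← hF] at h1
    have h2 := resultant_ne_zero F F.derivative hsep
    rw [hnF, hnG] at h2
    exact h2 h1
  · intro x
    have h := congrArg (fun q : ℤ[X] => q.eval x) hPQ
    simpa only [eval_add, eval_mul, eval_C] using h

open Classical in
theorem sq_irr (f : ℤ[X]) (hf : Irreducible f) (hd : 0 < f.natDegree) :
    ∃ KK q0 : ℕ, ∀ q : ℕ, q.Prime → q0 ≤ q → ∀ N H : ℕ,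
      ((((Icc 1 H).filter (fun j : ℕ => ((q ^ 2 : ℕ) : ℤ) ∣ f.eval ((N + j : ℕ) : ℤ))).card : ℕ) : ℝ) ≤
        KK * (H * (1 / (q : ℝ) ^ 2) + 1) := by
  obtain ⟨P, Q, R, hR, hPQ⟩ := bez f hf hd
  refine ⟨KF f, R.natAbs + 1, ?_⟩
  intro q hq hqR N H
  set A := (Icc 1 H).filter (fun j : ℕ => ((q ^ 2 : ℕ) : ℤ) ∣ f.eval ((N + j : ℕ) : ℤ)) with hA
  have hq0 : 0 < q := hq.pos
  have hqp : Prime (q : ℤ) := Nat.prime_iff_prime_int.1 hq
  have hqR' : ¬ (q : ℤ) ∣ R := by
    intro h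
    have h1 := Nat.le_of_dvd (Int.natAbs_pos.2 hR) (Int.natCast_dvd.1 h)
    omega
  have hqd : ∀ j ∈ A, (q : ℤ) ∣ f.eval ((N + j : ℕ) : ℤ) := by
    intro n hn
    rw [hA, mem_filter] at hn
    refine dvd_trans ?_ hn.2
    push_cast
    exact dvd_pow_self _ (by norm_num)
  have himg : (A.image (fun j => (N + j) % q)).card ≤ KF f := by
    have hro := ro_le f (by omega) 0 q hq
    rw [ro_eq] at hro
    refine le_trans (card_le_card ?_) hro
    intro r hr
    rw [mem_image] at hr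
    obtain ⟨n, hn, rfl⟩ := hr
    rw [mem_filter, mem_range]
    refine ⟨Nat.mod_lt _ hq0, ?_⟩
    have h1 : (((N + n : ℕ) : ℤ) - (((N + n) % q : ℕ) : ℤ)) ∣
        f.eval ((N + n : ℕ) : ℤ) - f.eval (((N + n) % q : ℕ) : ℤ) := sub_dvd_eval_sub _ _ f
    have h2 : (q : ℤ) ∣ ((N + n : ℕ) : ℤ) - (((N + n) % q : ℕ) : ℤ) := by
      rw [Int.natCast_mod]
      exact Int.dvd_self_sub_emod
    have h4 := dvd_sub (hqd n hn) (h2.trans h1)
    have e : f.eval ((N + n : ℕ) : ℤ) - (f.eval ((N + n : ℕ) : ℤ) - f.eval (((N + n) % q : ℕ) : ℤ)) =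
        f.eval (((N + n) % q : ℕ) : ℤ) + 0 := by ring
    rwa [e] at h4
  have hfib : ∀ r ∈ A.image (fun j => (N + j) % q), ((A.filter (fun j => (N + j) % q = r)).card : ℝ) ≤
      H / (q : ℝ) ^ 2 + 1 := by
    intro r hr
    rw [mem_image] at hr
    obtain ⟨n0, hn0, hr0⟩ := hr
    have hsub : A.filter (fun n => (N + n) % q = r) ⊆
        (Icc 1 H).filter (fun n : ℕ => ((q ^ 2 : ℕ) : ℤ) ∣ (n : ℤ) - (n0 : ℤ)) := by
      intro n hn
      rw [mem_filter] at hn
      obtain ⟨hnA, hnr⟩ := hn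
      have hn1 := hnA
      have hn01 := hn0
      rw [hA, mem_filter] at hn1 hn01
      rw [mem_filter]
      refine ⟨hn1.1, ?_⟩
      have hmod : (q : ℤ) ∣ (n : ℤ) - n0 := by
        have : (N + n) % q = (N + n0) % q := by rw [hnr, ← hr0]
        have h5 : ((N + n0 : ℕ) : ℤ) ≡ ((N + n : ℕ) : ℤ) [ZMOD q] := by
          rw [Int.natCast_modEq_iff]
          exact this.symm
        have h6 := h5.dvd
        have e : (((N + n : ℕ) : ℤ) - ((N + n0 : ℕ) : ℤ)) = (n : ℤ) - n0 := by push_cast; ring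
        rwa [e] at h6
      obtain ⟨k, hk⟩ := Polynomial.binomExpansion f ((N + n0 : ℕ) : ℤ) ((n : ℤ) - n0)
      have e0 : (((N + n0 : ℕ) : ℤ) + ((n : ℤ) - n0)) = ((N + n : ℕ) : ℤ) := by push_cast; ring
      rw [e0] at hk
      have hd2 : ((q ^ 2 : ℕ) : ℤ) ∣ ((n : ℤ) - n0) *
          (f.derivative.eval ((N + n0 : ℕ) : ℤ) + k * ((n : ℤ) - n0)) := by
        have h6 := dvd_sub hn1.2 hn01.2
        have e : f.eval ((N + n : ℕ) : ℤ) - f.eval ((N + n0 : ℕ) : ℤ) = ((n : ℤ) - n0) *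
          (f.derivative.eval ((N + n0 : ℕ) : ℤ) + k * ((n : ℤ) - n0)) := by
          rw [hk]
          ring
        rwa [e] at h6
      have hcop : IsCoprime ((q ^ 2 : ℕ) : ℤ)
          (f.derivative.eval ((N + n0 : ℕ) : ℤ) + k * ((n : ℤ) - n0)) := by
        push_cast
        apply IsCoprime.pow_left
        rw [hqp.coprime_iff_not_dvd]
        intro h6
        have e7 : ((N + n0 : ℕ) : ℤ) = (N : ℤ) + n0 := by push_cast; ring
        have h7 := dvd_sub h6 (hmod.mul_left k)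
        rw [add_sub_cancel_right] at h7
        apply hqR'
        rw [← hPQ ((N + n0 : ℕ) : ℤ)]
        refine dvd_add ((hqd n0 hn0).mul_right _) ?_
        rw [e7]
        exact h7.mul_right _
      exact hcop.dvd_of_dvd_mul_right hd2
    have h5 := class_count (q ^ 2) (pow_pos hq0 2) H n0
    have h6 : (H : ℝ) / ((q ^ 2 : ℕ) : ℝ) + 1 = H / (q : ℝ) ^ 2 + 1 := by
      push_cast
      ring
    rw [h6] at h5
    exact le_trans (Nat.cast_le.2 (card_le_card hsub)) h5
  have hnn : (0 : ℝ) ≤ H / (q : ℝ) ^ 2 + 1 := by positivity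
  calc (A.card : ℝ) = ∑ r ∈ A.image (fun j => (N + j) % q),
          ((A.filter (fun j => (N + j) % q = r)).card : ℝ) := by
        exact_mod_cast card_eq_sum_card_image (fun j => (N + j) % q) A
    _ ≤ ∑ r ∈ A.image (fun j => (N + j) % q), (H / (q : ℝ) ^ 2 + 1) := sum_le_sum hfib
    _ = ((A.image (fun j => (N + j) % q)).card : ℝ) * (H / (q : ℝ) ^ 2 + 1) := by
        rw [sum_const, nsmul_eq_mul]
    _ ≤ (KF f : ℝ) * (H / (q : ℝ) ^ 2 + 1) := by
        apply mul_le_mul_of_nonneg_right _ hnn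
        exact_mod_cast himg
    _ = _ := by rw [div_eq_mul_one_div (H : ℝ)]

end Pool.Agent.K3h21.IR
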