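import Pool.Agent.K3h21.IR.Fin
import Pool.Agent.K3h21.IR.Mer
import Pool.Agent.K3h21.IR.Sqr

/-! Clusters of almost prime values of an irreducible polynomial of any degree, together with further polynomials. -/

set_option autoImplicit false

namespace Pool.Agent.K3h21.IR

open Finset Filter Polynomial
open Pool.Agent.Y677.RSZ (rt Sys rhoT per_mod ev_log V eng_all)
open Pool.Agent.H474R2.PG (rho)
open Pool.Agent.W23.DC
open Pool.Agent.R498.MT (omega_le rt_ro)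

/-- an irreducible polynomial of degree at least two has no integral zeros -/
theorem eval_ne (f : ℤ[X]) (hf : Irreducible f) (hd : 2 ≤ f.natDegree) (n : ℤ) : f.eval n ≠ 0 := by
  intro h
  have h1 : (X - C n) ∣ f := dvd_iff_isRoot.2 h
  obtain ⟨q, hq⟩ := h1
  rcases hf.isUnit_or_isUnit hq with h2 | h2
  · exact not_isUnit_X_sub_C n h2
  · have h3 : f.natDegree = 1 := by
      rw [hq, natDegree_mul (X_sub_C_ne_zero n) h2.ne_zero, natDegree_X_sub_C,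
        natDegree_eq_zero_of_isUnit h2]
    omega

theorem eval_size (f : ℤ[X]) : ∃ CG : ℕ, ∀ n : ℕ, (f.eval (n : ℤ)).natAbs ≤ CG * (n + 1) ^ f.natDegree := by
  refine ⟨∑ i ∈ range (f.natDegree + 1), (f.coeff i).natAbs, fun n => ?_⟩
  rw [eval_eq_sum_range, sum_mul]
  refine (Int.natAbs_sum_le _ _).trans (sum_le_sum fun i hi => ?_)
  rw [mem_range] at hi
  rw [Int.natAbs_mul, Int.natAbs_pow, Int.natAbs_natCast]
  apply Nat.mul_le_mul_left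
  exact (Nat.pow_le_pow_left (by omega) i).trans (Nat.pow_le_pow_right (by omega) (by omega))

theorem rt_rho (f : ℤ[X]) (p : ℕ) : rt (fun n => f.eval n) p = rho f p := rfl

/-- **Clusters of almost prime values of an irreducible polynomial.** -/
theorem irr_gen (f : ℤ[X]) (hf : Irreducible f) (hd : 2 ≤ f.natDegree)
    (P : ℤ[X]) (hP : P ≠ 0)
    (hPd : ∀ p : ℕ, p.Prime → ∃ n : ℤ, ¬ (p : ℤ) ∣ P.eval n)
    (hGP : ∀ p : ℕ, p.Prime → ∀ n : ℤ, (p : ℤ) ∣ f.eval n → (p : ℤ) ∣ P.eval n)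
    (r0 : ℕ) (τ θ2 : ℝ) (hτh : 1 / 2 ≤ τ) (hτθ : τ < θ2)
    (hθ2 : θ2 ≤ 1) (hr0 : 1 / (8 / 9 : ℝ) + ((f.natDegree : ℝ) + 1 / 100) / (24 / 25 * τ) ≤ r0 + 1)
    (m : ℕ) :
    ∃ K₀ : ℕ, ∀ HH : Finset ℕ, K₀ ≤ HH.card → ∃ δ : ℝ, 0 < δ ∧ ∀ l : ℕ, 2 ≤ l →
      ∃ B' : ℕ, ∀ᶠ N : ℕ in atTop,
      ∃ H ⊆ HH, H.card = m ∧ ∃ n d : ℕ, N < n ∧
        ((n + (l - 1) * d : ℕ) : ℝ) ≤ N + (N : ℝ) ^ θ2 ∧ 1 ≤ d ∧
        (d : ℝ) ≤ Real.log N ^ B' ∧ ∀ j < l, ∀ h ∈ H,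
          (f.eval ((n + j * d + h : ℕ) : ℤ)).natAbs.primeFactorsList.length ≤ r0 ∧
          (∀ p : ℕ, p.Prime → (p : ℤ) ∣ f.eval ((n + j * d + h : ℕ) : ℤ) → (N : ℝ) ^ (τ / 4) ≤ p) ∧
          ∀ p : ℕ, p.Prime → (p : ℤ) ∣ P.eval ((n + j * d + h : ℕ) : ℤ) → (N : ℝ) ^ δ ≤ p := by
  classical
  have hGd : ∀ p : ℕ, p.Prime → ∃ n : ℤ, ¬ (p : ℤ) ∣ f.eval n := by
    intro p hp
    obtain ⟨n, hn⟩ := hPd p hp
    exact ⟨n, fun h => hn (hGP p hp n h)⟩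
  obtain ⟨g₀, hg₀⟩ := Pool.Agent.Y677.RSZ.poly_all P hP hPd
  obtain ⟨g₁, hg₁⟩ := Pool.Agent.Y677.RSZ.poly_all f hf.ne_zero hGd
  obtain ⟨CG, hCG⟩ := eval_size f
  obtain ⟨KK, q0, hKK⟩ := sq_irr f hf (by omega)
  exact fin3 P hP (g₀ + g₁ + 1) (by omega) (Pool.Agent.Y677.RSZ.Sys.mono hg₀ (by omega))
    (fun n => f.eval n) (Pool.Agent.Y677.RSZ.Sys.mono hg₁ (by omega)) hGP CG f.natDegree
    (fun n => ⟨eval_ne f hf hd _, hCG n⟩)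
    (fun ε₁ υ η hε hυ hη => mer_irr f hf (by omega) ε₁ υ η hε hυ hη)
    KK q0 hKK r0 τ θ2 hτh hτθ hθ2 hr0 m

/-- **Clusters of almost prime values of an irreducible polynomial and of further polynomials.** -/
theorem irr_sys (f : ℤ[X]) (hf : Irreducible f) (hd : 2 ≤ f.natDegree) (g : ℤ[X]) (hg : g ≠ 0)
    (hadm : ∀ p : ℕ, p.Prime → ∃ n : ℤ, ¬ (p : ℤ) ∣ f.eval n * g.eval n)
    (r0 : ℕ) (τ θ2 : ℝ) (hτh : 1 / 2 ≤ τ) (hτθ : τ < θ2)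
    (hθ2 : θ2 ≤ 1) (hr0 : 1 / (8 / 9 : ℝ) + ((f.natDegree : ℝ) + 1 / 100) / (24 / 25 * τ) ≤ r0 + 1)
    (m : ℕ) :
    ∃ K : ℕ, ∀ S : Finset ℕ, K ≤ S.card → ∃ (r : ℕ) (δ : ℝ), 0 < δ ∧ ∀ l : ℕ,
      ∃ B' : ℕ, ∀ᶠ N : ℕ in atTop, ∃ H ⊆ S, H.card = m ∧ ∃ n d : ℕ, 1 ≤ d ∧
        (d : ℝ) ≤ Real.log N ^ B' ∧ ∀ j < l, N < n + j * d ∧
          ((n + j * d : ℕ) : ℝ) ≤ N + (N : ℝ) ^ θ2 ∧ ∀ h ∈ H,
          (f.eval ((n + j * d + h : ℕ) : ℤ)).natAbs.primeFactorsList.length ≤ r0 ∧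
          (∀ p : ℕ, p.Prime → (p : ℤ) ∣ f.eval ((n + j * d + h : ℕ) : ℤ) → (N : ℝ) ^ (τ / 4) ≤ p) ∧
          (g.eval ((n + j * d + h : ℕ) : ℤ)).natAbs.primeFactorsList.length ≤ r ∧
          ∀ p : ℕ, p.Prime → (p : ℤ) ∣ g.eval ((n + j * d + h : ℕ) : ℤ) → (N : ℝ) ^ δ ≤ p := by
  have hev : ∀ n : ℤ, (f * g).eval n = f.eval n * g.eval n := fun n => eval_mul
  obtain ⟨K, hK⟩ := irr_gen f hf hd (f * g) (mul_ne_zero hf.ne_zero hg)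
    (fun p hp => by
      obtain ⟨n, hn⟩ := hadm p hp
      exact ⟨n, by rwa [hev]⟩)
    (fun p _ n hd => by rw [hev]; exact hd.mul_right _) r0 τ θ2 hτh hτθ hθ2 hr0 m
  obtain ⟨Kf, D, hKD⟩ := Pool.Agent.W123.RU.Poly.eval_bound g
  obtain ⟨n₀, hn₀⟩ := Pool.Agent.Y677.RSZ.ne_zero_ev g hg
  refine ⟨K, fun S hS => ?_⟩
  obtain ⟨δ, hδ, hl⟩ := hK S hS
  obtain ⟨r, hr⟩ := exists_nat_ge ((2 * D + 1 : ℝ) / δ)
  refine ⟨r, δ, hδ, fun l => ?_⟩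
  obtain ⟨B', hB⟩ := hl (l + 2) (by omega)
  refine ⟨B', ?_⟩
  filter_upwards [hB, eventually_ge_atTop (Kf + n₀ + 7 + S.sup id)] with N hN hNK
  obtain ⟨H, hH, hHc, n, d, h1, h2, h3, h4, h5⟩ := hN
  have hNr : (7 : ℝ) ≤ N := by
    have : 7 ≤ N := by omega
    exact_mod_cast this
  have hN0 : (0 : ℝ) < N := by linarith
  have hKr : (Kf : ℝ) ≤ N := by
    have : Kf ≤ N := by omega
    exact_mod_cast this
  have hin : ∀ j < l, ((n + j * d : ℕ) : ℝ) ≤ N + (N : ℝ) ^ θ2 := by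
    intro j hj
    refine le_trans ?_ h2
    have : n + j * d ≤ n + (l + 2 - 1) * d := by
      have := Nat.mul_le_mul_right d (show j ≤ l + 2 - 1 by omega)
      omega
    exact_mod_cast this
  refine ⟨H, hH, hHc, n, d, h3, h4, fun j hj => ⟨by omega, hin j hj, fun h hh => ?_⟩⟩
  obtain ⟨h6, h7, h8⟩ := h5 j (by omega) h hh
  have h9 : ∀ p : ℕ, p.Prime → (p : ℤ) ∣ g.eval ((n + j * d + h : ℕ) : ℤ) → (N : ℝ) ^ δ ≤ p := by
    intro p hp hpd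
    apply h8 p hp
    rw [hev]
    exact hpd.mul_left _
  refine ⟨h6, h7, ?_, h9⟩
  have h11 : h ≤ N := by
    have : h ≤ S.sup id := Finset.le_sup (f := id) (hH hh)
    omega
  have h12 : (h : ℝ) ≤ N := by exact_mod_cast h11
  have h13 := hin j hj
  have h14 : (N : ℝ) ^ θ2 ≤ N := by
    calc (N : ℝ) ^ θ2 ≤ (N : ℝ) ^ (1 : ℝ) :=
          Real.rpow_le_rpow_of_exponent_le (by linarith) hθ2
      _ = N := Real.rpow_one _
  have h15 : ((n + j * d + h : ℕ) : ℝ) ≤ 3 * N := by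
    push_cast at h13 ⊢
    linarith
  have h16 := hKD ((n + j * d + h : ℕ) : ℤ)
  have h17 : ((g.eval ((n + j * d + h : ℕ) : ℤ)).natAbs : ℝ) =
      |((g.eval ((n + j * d + h : ℕ) : ℤ) : ℤ) : ℝ)| := by
    rw [← Int.cast_abs, Int.abs_eq_natAbs]
    simp
  have h18 : ((g.eval ((n + j * d + h : ℕ) : ℤ)).natAbs : ℝ) ≤
      (N : ℝ) ^ ((2 * D + 1 : ℕ) : ℝ) := by
    rw [h17]
    refine h16.trans ?_
    rw [Real.rpow_natCast, pow_succ, pow_mul, mul_comm]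
    have h19 : 1 + |(((n + j * d + h : ℕ) : ℤ) : ℝ)| ≤ (N : ℝ) ^ 2 := by
      rw [Int.cast_natCast, abs_of_nonneg (Nat.cast_nonneg _)]
      nlinarith
    have h20 : (0 : ℝ) ≤ 1 + |(((n + j * d + h : ℕ) : ℤ) : ℝ)| := by positivity
    gcongr
  have h21 := omega_le N (g.eval ((n + j * d + h : ℕ) : ℤ)).natAbs δ
    ((2 * D + 1 : ℕ) : ℝ) (by omega) hδ (by
      rw [Int.natAbs_ne_zero]
      exact hn₀ _ (by omega)) (fun p hp hpd => h9 p hp (Int.natCast_dvd.2 hpd)) h18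
  have h22 : ((2 * D + 1 : ℕ) : ℝ) / δ ≤ r := by
    push_cast
    exact hr
  exact_mod_cast h21.trans h22

end Pool.Agent.K3h21.IR
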