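import Pool.Agent.R498.MT.Fin2

set_option autoImplicit false
set_option linter.unusedSectionVars false
set_option linter.unusedVariables false

/-! The theorem of Maynard and Tao for almost prime values of polynomials of any degree, in narrow progressions
(adapted from `Pool/Agent/R498/MT/Fin1.lean` and `Fin2.lean`, which treat values of quadratic size). -/

namespace Pool.Agent.K3h21.IR

open Finset Filter Polynomial
open Pool.Agent.Y677.RSZ (rt Sys rhoT per_mod ev_log V eng_all)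
open Pool.Agent.TH423.SH (PS)
open Pool.Agent.W23.DC
open Pool.Agent.Y882
open Pool.Agent.Y882.PX
open Pool.Agent.Y882.KW
open Pool.Agent.R498.MT

/-- the numerical conditions -/
theorem nums2 (W r n₀ KP H₀ q0 CG Y₀ NT a dg : ℕ) (c1 c2 ζ υ θ1 θ2 : ℝ) (hW : 2 ≤ W) (hr : r < W)
    (hζ : 0 < ζ) (hυ : υ < θ1) (hθ1 : 1 / 2 ≤ θ1) (hθ : θ1 < θ2) (hθ2 : θ2 ≤ 1) :
    ∀ᶠ N : ℕ in atTop, 3 ≤ N ∧ Y₀ ≤ N ∧ n₀ ≤ N ∧ (KP : ℝ) ≤ N ∧ (q0 : ℝ) + 2 ≤ (N : ℝ) ^ ζ ∧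
      ((3 * N + W * NT + 1 : ℕ) : ℝ) ≤ (N : ℝ) ^ 2 ∧ (4 ^ dg * CG : ℝ) ≤ (N : ℝ) ^ ((1 : ℝ) / 100) ∧
      W * NT + 2 * W + 1 ≤ N ∧
      c1 * Real.log N ^ a ≤ (N : ℝ) ^ ζ ∧ c2 * Real.log N ^ a ≤ (N : ℝ) ^ (θ1 - υ) ∧
      ∃ L : ℕ, W * (L + 1) ≤ ⌊(N : ℝ) ^ θ2⌋₊ ∧ (N : ℝ) ^ θ1 ≤ L ∧
        H₀ ≤ W * L ∧ W * L ≤ N ∧ (N + r) / W + L ≤ N ∧ (N : ℝ) ^ (1 / 2 : ℝ) ≤ L := by
  have hT := tendsto_natCast_atTop_atTop (R := ℝ)
  have v1 : ∀ᶠ N : ℕ in atTop, (q0 : ℝ) + 2 ≤ (N : ℝ) ^ ζ :=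
    ((tendsto_rpow_atTop hζ).comp hT).eventually_ge_atTop _
  have v2 : ∀ᶠ N : ℕ in atTop, (4 ^ dg * CG : ℝ) ≤ (N : ℝ) ^ ((1 : ℝ) / 100) :=
    ((tendsto_rpow_atTop (by first | linarith | norm_num)).comp hT).eventually_ge_atTop _
  have v3 := ev_log a c1 ζ hζ
  have v4 := ev_log a c2 (θ1 - υ) (by linarith)
  have v5 : ∀ᶠ N : ℕ in atTop, (5 * W : ℝ) ≤ (N : ℝ) ^ (θ2 - θ1) :=
    ((tendsto_rpow_atTop (by first | linarith | norm_num)).comp hT).eventually_ge_atTop _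
  have v6 : ∀ᶠ N : ℕ in atTop, (1 : ℝ) + H₀ ≤ (N : ℝ) ^ θ1 :=
    ((tendsto_rpow_atTop (by first | linarith | norm_num)).comp hT).eventually_ge_atTop _
  filter_upwards [eventually_ge_atTop 3, eventually_ge_atTop Y₀, eventually_ge_atTop n₀,
    eventually_ge_atTop KP, eventually_ge_atTop (W * NT + 2 * W + 4), v1, v2, v3, v4, v5, v6]
    with N e1 e2 e3 e4 e5 w1 w2 w3 w4 w5 w6
  have hNr : (3 : ℝ) ≤ N := by exact_mod_cast e1
  have hN0 : (0 : ℝ) < N := by linarith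
  have hN1 : (1 : ℝ) ≤ N := by linarith
  have hWr : (2 : ℝ) ≤ W := by exact_mod_cast hW
  refine ⟨e1, e2, e3, by exact_mod_cast e4, w1, ?_, w2, by omega, w3, w4, ?_⟩
  · have h1 : 3 * N + W * NT + 1 ≤ N ^ 2 := by
      have h2 : 4 ≤ N := by omega
      have h3 : W * NT + 1 ≤ N := by omega
      nlinarith
    exact_mod_cast h1
  · set Q : ℕ := ⌊(N : ℝ) ^ θ2⌋₊ with hQ
    have hQ1 : (N : ℝ) ^ θ2 - 1 < Q := by
      have := Nat.lt_floor_add_one ((N : ℝ) ^ θ2)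
      linarith
    have hQ2 : (Q : ℝ) ≤ (N : ℝ) ^ θ2 := Nat.floor_le (by positivity)
    have hsplit : (N : ℝ) ^ θ2 = (N : ℝ) ^ θ1 * (N : ℝ) ^ (θ2 - θ1) := by
      rw [← Real.rpow_add hN0]
      congr 1
      ring
    have hT1 : (1 : ℝ) ≤ (N : ℝ) ^ θ1 := by
      have : (0 : ℝ) ≤ H₀ := Nat.cast_nonneg _
      linarith
    have hQ3 : (5 * W : ℝ) * (N : ℝ) ^ θ1 ≤ (N : ℝ) ^ θ2 := by
      rw [hsplit]
      nlinarith
    have hQW : (Q : ℝ) < W * ((Q / W : ℕ) + 1) := by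
      have h1 : Q < W * (Q / W + 1) := by
        have := Nat.lt_mul_div_succ Q (show 0 < W by omega)
        exact this
      exact_mod_cast h1
    have hQW1 : 1 ≤ Q / W := by
      rw [Nat.le_div_iff_mul_le (by omega), one_mul]
      have h1 : (W : ℝ) ≤ Q := by nlinarith
      exact_mod_cast h1
    obtain ⟨L, hL⟩ : ∃ L : ℕ, L + 1 = Q / W := ⟨Q / W - 1, by omega⟩
    have hLr : ((Q / W : ℕ) : ℝ) = L + 1 := by rw [← hL]; push_cast; rfl
    have hL1 : (N : ℝ) ^ θ1 ≤ L := by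
      rw [hLr] at hQW
      have h1 : (W : ℝ) * (5 * (N : ℝ) ^ θ1) < W * (L + 1 + 1) + 1 := by nlinarith
      have h2 : (W : ℝ) * (5 * (N : ℝ) ^ θ1) < W * (L + 1 + 1 + 1) := by nlinarith
      have h3 := lt_of_mul_lt_mul_left h2 (by linarith)
      linarith
    have hWLQ : W * (L + 1) ≤ Q := by
      rw [hL]
      exact Nat.mul_div_le Q W
    have hQN : Q ≤ N := by
      have h1 : (Q : ℝ) ≤ N := by
        refine hQ2.trans ?_
        calc (N : ℝ) ^ θ2 ≤ (N : ℝ) ^ (1 : ℝ) :=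
              Real.rpow_le_rpow_of_exponent_le hN1 (by linarith)
          _ = N := Real.rpow_one _
      exact_mod_cast h1
    refine ⟨L, hWLQ, hL1, ?_, ?_, ?_, ?_⟩
    · have h1 : (H₀ : ℝ) ≤ L := by linarith
      have h2 : H₀ ≤ L := by exact_mod_cast h1
      exact h2.trans (Nat.le_mul_of_pos_left _ (by omega))
    · have : W * L ≤ W * (L + 1) := Nat.mul_le_mul_left _ (by omega)
      omega
    · have h1 : (N + r) / W ≤ N / W + 1 := by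
        rw [← Nat.add_div_right N (show 0 < W by omega)]
        exact Nat.div_le_div_right (by omega)
      have h2 : L + 1 ≤ N / W := by
        rw [hL]
        exact Nat.div_le_div_right hQN
      have h3 : 2 * (N / W) ≤ W * (N / W) := Nat.mul_le_mul_right _ hW
      have h4 : W * (N / W) ≤ N := Nat.mul_div_le N W
      omega
    · refine le_trans ?_ hL1
      exact Real.rpow_le_rpow_of_exponent_le hN1 (by linarith)

open Classical in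
/-- the arguments with a good set of slots -/
theorem many2 (F G : ℤ → ℤ) (KK q0 W b r M L N k m a : ℕ) (ε₁ ζ υ aw bw c V θ1 : ℝ)
    (hSq : ∀ q : ℕ, q.Prime → q0 ≤ q → ∀ N H : ℕ,
      ((((Icc 1 H).filter (fun j : ℕ => ((q ^ 2 : ℕ) : ℤ) ∣ G ((N + j : ℕ) : ℤ))).card : ℕ) : ℝ) ≤
        KK * (H * (1 / (q : ℝ) ^ 2) + 1)) (hW : 0 < W) (hN : 3 ≤ N)
    (hq0 : (q0 : ℝ) + 2 ≤ (N : ℝ) ^ ζ) (t : Fin (2 ^ k) → ℕ)
    (hc : 0 < c) (hV : 0 < V) (hV1 : 1 ≤ Real.log N ^ a * V)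
    (hgd : c * (L * V) ≤ ((gd F G N ε₁ ζ υ aw bw W b t m M L).card : ℝ))
    (hL : (N : ℝ) ^ θ1 ≤ L)
    (h1 : 8 * (2 ^ k * KK * W) / c * Real.log N ^ a ≤ (N : ℝ) ^ ζ)
    (h2 : 4 * (2 ^ k * KK) / c * Real.log N ^ a ≤ (N : ℝ) ^ (θ1 - υ)) :
    ∃ (Hs : Finset (Fin (2 ^ k))) (A : Finset ℕ), Hs.card = m ∧
      c / (2 * 2 ^ 2 ^ k) * (L * V) ≤ A.card ∧
      ∀ K ∈ A, K ∈ Ioc M (M + L) ∧ (∀ p : ℕ, p.Prime → (p : ℝ) < (N : ℝ) ^ ε₁ → ∀ i,
          ¬ (p : ℤ) ∣ F ((W * (K + t i) + b : ℕ) : ℤ)) ∧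
        ∀ i ∈ Hs, 0 < WW N ζ υ aw bw (G ((W * (K + t i) + b : ℕ) : ℤ)).natAbs ∧
          ∀ q ∈ pr N ζ υ, ¬ ((q ^ 2 : ℕ) : ℤ) ∣ G ((W * (K + t i) + b : ℕ) : ℤ) := by
  have hNr : (3 : ℝ) ≤ N := by exact_mod_cast hN
  have hN0 : (0 : ℝ) < N := by linarith
  have hlN : 0 < Real.log N := Real.log_pos (by linarith)
  have hL0 : (0 : ℝ) < L := lt_of_lt_of_le (by positivity) hL
  set Bd := (Ioc M (M + L)).filter (fun K => ∃ i, ∃ q ∈ pr N ζ υ,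
      ((q ^ 2 : ℕ) : ℤ) ∣ G ((W * (K + t i) + b : ℕ) : ℤ)) with hBd
  set Gd := gd F G N ε₁ ζ υ aw bw W b t m M L with hGd
  have hbad := bad_le G KK q0 hSq W b M L N t hW ζ υ (by omega) hq0
  have hbad2 : ((2 ^ k : ℕ) : ℝ) * (KK * ((W * L : ℕ) * (2 / (N : ℝ) ^ ζ) + (N : ℝ) ^ υ)) ≤
      c / 2 * (L * V) := by
    have hla : 0 < Real.log N ^ a := by positivity
    rw [div_mul_eq_mul_div, div_le_iff₀ hc] at h1 h2
    have e1 : ((2 ^ k : ℕ) : ℝ) * (KK * ((W * L : ℕ) * (2 / (N : ℝ) ^ ζ))) ≤ c / 4 * (L * V) := by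
      have hNζ : (0 : ℝ) < (N : ℝ) ^ ζ := by positivity
      push_cast
      rw [show (2 : ℝ) ^ k * (KK * (W * L * (2 / (N : ℝ) ^ ζ))) =
        (2 * (2 ^ k * KK * W)) * L / (N : ℝ) ^ ζ by ring, div_le_iff₀ hNζ]
      have e2 : 8 * (2 ^ k * KK * W : ℝ) * L * 1 ≤ 8 * (2 ^ k * KK * W : ℝ) * L *
          (Real.log N ^ a * V) := mul_le_mul_of_nonneg_left hV1 (by positivity)
      have e3 : (8 * (2 ^ k * KK * W) * Real.log N ^ a) * (L * V) ≤ ((N : ℝ) ^ ζ * c) * (L * V) :=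
        mul_le_mul_of_nonneg_right h1 (by positivity)
      linarith
    have e2 : ((2 ^ k : ℕ) : ℝ) * (KK * (N : ℝ) ^ υ) ≤ c / 4 * (L * V) := by
      push_cast
      have e3 : (N : ℝ) ^ υ * (N : ℝ) ^ (θ1 - υ) ≤ L := by
        rw [← Real.rpow_add hN0]
        refine le_trans (le_of_eq ?_) hL
        congr 1
        ring
      have e4 : (4 * (2 ^ k * KK) * Real.log N ^ a) * ((N : ℝ) ^ υ * V) ≤
          ((N : ℝ) ^ (θ1 - υ) * c) * ((N : ℝ) ^ υ * V) :=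
        mul_le_mul_of_nonneg_right h2 (by positivity)
      have e5 : ((N : ℝ) ^ υ * (N : ℝ) ^ (θ1 - υ)) * (c * V) ≤ L * (c * V) :=
        mul_le_mul_of_nonneg_right e3 (by positivity)
      have e6 : 4 * (2 ^ k * KK : ℝ) * (N : ℝ) ^ υ * 1 ≤ 4 * (2 ^ k * KK : ℝ) * (N : ℝ) ^ υ *
          (Real.log N ^ a * V) := mul_le_mul_of_nonneg_left hV1 (by positivity)
      linarith
    rw [mul_add, mul_add]
    linarith
  have hcard : c / 2 * (L * V) ≤ ((Gd \ Bd).card : ℝ) := by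
    have h3 : (Gd.card : ℝ) ≤ (Gd \ Bd).card + Bd.card := by
      have h4 : Gd ⊆ (Gd \ Bd) ∪ Bd := by
        intro x hx
        by_cases hb : x ∈ Bd
        · exact mem_union_right _ hb
        · exact mem_union_left _ (mem_sdiff.2 ⟨hx, hb⟩)
      exact_mod_cast (card_le_card h4).trans (card_union_le _ _)
    have h4 : (Bd.card : ℝ) ≤ c / 2 * (L * V) := by
      refine le_trans ?_ (hbad.trans hbad2)
      rw [hBd]
    linarith
  have hpos : 0 < c / 2 * (L * V) := by positivity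
  have hne : (Gd \ Bd).Nonempty := by
    rw [← card_pos]
    have : (0 : ℝ) < ((Gd \ Bd).card : ℝ) := hpos.trans_le hcard
    exact_mod_cast this
  obtain ⟨Hs, hHs, hle⟩ := pigH (2 ^ k) m (Gd \ Bd) (fun K => univ.filter (fun i =>
      0 < WW N ζ υ aw bw (G ((W * (K + t i) + b : ℕ) : ℤ)).natAbs)) hne (by
    intro K hK
    have h3 := (mem_sdiff.1 hK).1
    rw [hGd] at h3
    unfold R498.MT.gd at h3
    rw [mem_filter] at h3
    exact h3.2.2.le)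
  refine ⟨Hs, (Gd \ Bd).filter (fun K => Hs ⊆ univ.filter (fun i =>
      0 < WW N ζ υ aw bw (G ((W * (K + t i) + b : ℕ) : ℤ)).natAbs)), hHs, ?_, ?_⟩
  rotate_left
  · intro K hK
    have hK' := mem_filter.1 hK
    obtain ⟨hK1, hK2⟩ := hK'
    obtain ⟨hK3, hK4⟩ := mem_sdiff.1 hK1
    rw [hGd] at hK3
    unfold R498.MT.gd at hK3
    rw [mem_filter] at hK3
    refine ⟨hK3.1, hK3.2.1, ?_⟩
    intro i hi
    have h3 := mem_filter.1 (hK2 hi)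
    refine ⟨h3.2, ?_⟩
    intro q hq hqd
    apply hK4
    rw [hBd, mem_filter]
    exact ⟨hK3.1, i, q, hq, hqd⟩
  · rw [div_mul_eq_mul_div, div_le_iff₀ (by positivity)]
    have h3 : (((Gd \ Bd).card : ℕ) : ℝ) ≤ 2 ^ 2 ^ k *
        (((Gd \ Bd).filter (fun K => Hs ⊆ univ.filter (fun i =>
      0 < WW N ζ υ aw bw (G ((W * (K + t i) + b : ℕ) : ℤ)).natAbs))).card : ℝ) := by
      exact_mod_cast hle
    have h4 : c / 2 * (L * V) * 2 = c * (L * V) := by ring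
    linarith

/-- **Clusters of almost prime values in narrow progressions.** -/
theorem fin3 (P : ℤ[X]) (hP : P ≠ 0) (g : ℕ) (hg1 : 1 ≤ g) (hF : Sys g (fun n => P.eval n))
    (G : ℤ → ℤ) (hG : Sys g G)
    (hGF : ∀ p : ℕ, p.Prime → ∀ n : ℤ, (p : ℤ) ∣ G n → (p : ℤ) ∣ P.eval n)
    (CG dg : ℕ) (hGs : ∀ n : ℕ, G (n : ℤ) ≠ 0 ∧ (G (n : ℤ)).natAbs ≤ CG * (n + 1) ^ dg)
    (hMer : ∀ ε₁ υ η : ℝ, 0 < ε₁ → υ ≤ 1 → 0 < η → ∃ Y0 : ℕ, ∀ Y : ℕ, Y0 ≤ Y →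
      Mer (pr Y ε₁ υ) (tt Y) (fun p => (rt G p : ℝ) / p) ε₁ υ η)
    (KK q0 : ℕ)
    (hSq : ∀ q : ℕ, q.Prime → q0 ≤ q → ∀ N H : ℕ,
      ((((Icc 1 H).filter (fun j : ℕ => ((q ^ 2 : ℕ) : ℤ) ∣ G ((N + j : ℕ) : ℤ))).card : ℕ) : ℝ) ≤
        KK * (H * (1 / (q : ℝ) ^ 2) + 1)) (r0 : ℕ) (τ θ2 : ℝ) (hτh : 1 / 2 ≤ τ) (hτθ : τ < θ2)
    (hθ2 : θ2 ≤ 1) (hr0 : 1 / (8 / 9 : ℝ) + ((dg : ℝ) + 1 / 100) / (24 / 25 * τ) ≤ r0 + 1) (m : ℕ) :
    ∃ K₀ : ℕ, ∀ HH : Finset ℕ, K₀ ≤ HH.card → ∃ δ : ℝ, 0 < δ ∧ ∀ l : ℕ, 2 ≤ l →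
      ∃ B : ℕ, ∀ᶠ N : ℕ in atTop,
      ∃ H ⊆ HH, H.card = m ∧ ∃ n d : ℕ, N < n ∧
        ((n + (l - 1) * d : ℕ) : ℝ) ≤ N + (N : ℝ) ^ θ2 ∧ 1 ≤ d ∧
        (d : ℝ) ≤ Real.log N ^ B ∧ ∀ j < l, ∀ h ∈ H,
          (G ((n + j * d + h : ℕ) : ℤ)).natAbs.primeFactorsList.length ≤ r0 ∧
          (∀ p : ℕ, p.Prime → (p : ℤ) ∣ G ((n + j * d + h : ℕ) : ℤ) →
            (N : ℝ) ^ (τ / 4) ≤ p) ∧
          ∀ p : ℕ, p.Prime → (p : ℤ) ∣ P.eval ((n + j * d + h : ℕ) : ℤ) → (N : ℝ) ^ δ ≤ p := by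
  classical
  have hτ0 : 0 < τ := by linarith
  set υ : ℝ := 24 / 25 * τ with hυ
  have hυ0 : 0 < υ := by rw [hυ]; positivity
  have hcond : ∫ x in (τ / 4)..υ, ((8 / 9 : ℝ) - (8 / 9) / υ * x) / (τ - x) / x <
      Real.log (τ / (τ / 4) - 1) / τ := cond_A τ (8 / 9) hτ0 (by norm_num) (by norm_num)
  obtain ⟨θ1, hθ1⟩ : ∃ θ1 : ℝ, θ1 = (τ + θ2) / 2 := ⟨_, rfl⟩
  obtain ⟨R, hR0, hR1, hR2⟩ : ∃ R : ℝ, 0 < R ∧ R < τ / 4 ∧ 2 * R + τ < θ1 := by
    refine ⟨min (τ / 8) ((θ2 - τ) / 8), lt_min (by linarith) (by linarith), ?_, ?_⟩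
    · exact (min_le_left _ _).trans_lt (by linarith)
    · have := min_le_right (τ / 8) ((θ2 - τ) / 8)
      rw [hθ1]
      linarith
  have hGs' : ∀ n : ℕ, G (n : ℤ) ≠ 0 ∧ (G (n : ℤ)).natAbs ≤ (n + 2) ^ (CG + dg) := by
    intro n
    refine ⟨(hGs n).1, (hGs n).2.trans ?_⟩
    rw [pow_add]
    apply Nat.mul_le_mul
    · calc CG ≤ 2 ^ CG := Nat.lt_two_pow_self.le
        _ ≤ (n + 2) ^ CG := Nat.pow_le_pow_left (by omega) _
    · exact Nat.pow_le_pow_left (by omega) _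
  obtain ⟨k, W, hW0, hWsq, hWp, hgW, ε₁, c, hε, hεζ, hc, hcore⟩ :=
    core (fun n => P.eval n) G g hF hG hGF (CG + dg) hGs' hMer m τ (τ / 4) υ (8 / 9)
      ((8 / 9) / υ) θ1 R (by linarith) (by linarith) (by linarith) (by linarith) (by rw [hυ]; linarith)
      (by rw [hυ]; linarith) (by norm_num) (by positivity)
      (by rw [div_mul_cancel₀ _ hυ0.ne']) hcond hR0 hR1 hR2
  have hW2 : 2 ≤ W := by
    have h1 : 2 ∣ W := hWp 2 Nat.prime_two (by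
      have : 1 ≤ g * 2 ^ k := Nat.mul_pos hg1 (by positivity)
      omega)
    exact Nat.le_of_dvd hW0 h1
  refine ⟨W * 2 ^ k, ?_⟩
  intro HH hHH
  obtain ⟨r, t, hrW, ht, hmem⟩ := shifts W (2 ^ k) hW0 HH hHH
  obtain ⟨b, hbW, hb⟩ := exb' hF W hW0 hWsq
  obtain ⟨Y₀, hcore⟩ := hcore t ht b hb
  obtain ⟨g', hS⟩ := PP_sys P hP g hF W b t hWp hb
  obtain ⟨KP, DP, hKD⟩ := Pool.Agent.W123.RU.Poly.eval_bound (PP P W t)
  obtain ⟨n₀, hn₀⟩ := Pool.Agent.Y677.RSZ.ne_zero_ev (PP P W t) (PP_ne P hP W t)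
  set κ : ℝ := c / (2 * 2 ^ 2 ^ k) / W with hκ
  have hW0r : (0 : ℝ) < W := by exact_mod_cast hW0
  have hκ0 : 0 < κ := by positivity
  refine ⟨ε₁, hε, fun l hl => ?_⟩
  obtain ⟨B, H₀, hB⟩ := eng_all l (g' + 4 * (DP + 1)) (ε₁ / 2) κ hl (by positivity) hκ0
  obtain ⟨NT, hNT⟩ : ∃ NT : ℕ, ∀ i, t i ≤ NT :=
    ⟨univ.sup t, fun i => Finset.le_sup (f := t) (mem_univ i)⟩
  refine ⟨B, ?_⟩
  have hnums := nums2 W r (n₀ + W) KP H₀ q0 CG Y₀ NT (2 * (g * 2 ^ k) + 1) dg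
    (8 * (2 ^ k * KK * W) / c) (4 * (2 ^ k * KK) / c) (τ / 4) υ θ1 θ2 hW2 hrW (by linarith)
    (by rw [hυ]; linarith) (by linarith) (by linarith) hθ2
  filter_upwards [hnums] with N hN
  obtain ⟨n1, n2, n3, n4, n5, n6, n7, n8, n9, n10, L, l1, l2, l3, l4, l5, l6⟩ := hN
  have hNr : (3 : ℝ) ≤ N := by exact_mod_cast n1
  have hN0 : (0 : ℝ) < N := by linarith
  have hN1 : (1 : ℝ) ≤ N := by linarith
  obtain ⟨M, hM⟩ : ∃ M : ℕ, M = (N + r) / W := ⟨_, rfl⟩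
  obtain ⟨z, hz⟩ : ∃ z : ℕ, z + 1 = ⌈(N : ℝ) ^ ε₁⌉₊ := by
    have : 1 ≤ ⌈(N : ℝ) ^ ε₁⌉₊ := Nat.ceil_pos.2 (by positivity)
    exact ⟨⌈(N : ℝ) ^ ε₁⌉₊ - 1, by omega⟩
  have hz1 : (z : ℝ) < (N : ℝ) ^ ε₁ := by
    have h1 := Nat.ceil_lt_add_one (show 0 ≤ (N : ℝ) ^ ε₁ by positivity)
    rw [← hz] at h1
    push_cast at h1
    linarith
  have hz2 : (N : ℝ) ^ ε₁ ≤ z + 1 := by
    have h1 := Nat.le_ceil ((N : ℝ) ^ ε₁)
    rw [← hz] at h1
    push_cast at h1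
    exact h1
  obtain ⟨hgd, hV0, hV1⟩ := hcore N n2 M L z l2 (by rw [hM]; exact l5) hz1 hz2
  obtain ⟨Hs, A, hHs, hA1, hA2⟩ := many2 (fun n => P.eval n) G KK q0 W b r M L N k m
    (2 * (g * 2 ^ k) + 1) ε₁ (τ / 4) υ (8 / 9) ((8 / 9) / υ) c
    (Vp (fun n => P.eval n) W b z t) θ1 hSq hW0 n1 n5 t hc hV0 hV1 hgd l2 n9 n10
  -- the progression
  have hbds : ∀ K ∈ Ioc M (M + L), N + r < W * K + b ∧ W * K + b ≤ N + r + W * L + b ∧
      W * K + b ≤ 3 * N := by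
    intro K hK
    rw [mem_Ioc] at hK
    have h1 : N + r < W * (M + 1) := by
      rw [hM]
      exact Nat.lt_mul_div_succ (N + r) hW0
    have h2 : W * (M + 1) ≤ W * K := Nat.mul_le_mul_left _ (by omega)
    have h3 : W * K ≤ W * (M + L) := Nat.mul_le_mul_left _ hK.2
    have h4 : W * M ≤ N + r := by rw [hM]; exact Nat.mul_div_le _ _
    have h5 : W * (M + L) = W * M + W * L := by ring
    refine ⟨by omega, by omega, by omega⟩
  have hWL : ((N : ℝ)) ^ (1 / 2 : ℝ) ≤ ((W * L : ℕ) : ℝ) := by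
    refine l6.trans ?_
    have : L ≤ W * L := Nat.le_mul_of_pos_left _ hW0
    exact_mod_cast this
  have hWL1 : 1 ≤ W * L := by
    have h1 : (1 : ℝ) ≤ ((W * L : ℕ) : ℝ) := le_trans (Real.one_le_rpow hN1 (by norm_num)) hWL
    exact_mod_cast h1
  have hWLr : (1 : ℝ) ≤ ((W * L : ℕ) : ℝ) := by exact_mod_cast hWL1
  have hWLN : ((W * L : ℕ) : ℝ) ≤ N := by exact_mod_cast l4
  obtain ⟨a, d, hd1, hd2, had⟩ := hB (fun n => (PP P W t).eval n) (W * M + b) (W * L)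
    (A.image (fun K => W * K + b)) (Pool.Agent.Y677.RSZ.Sys.mono hS (by omega)) l3
    (by
      intro n hn
      rw [mem_Ioc] at hn
      have h4 : W * M ≤ N + r := by rw [hM]; exact Nat.mul_div_le _ _
      have h6 : N + r < W * (M + 1) := by
        rw [hM]
        exact Nat.lt_mul_div_succ (N + r) hW0
      have h7 : W * (M + 1) = W * M + W := by ring
      have hn1 : n ≤ 3 * N := by omega
      have hn2 : N ≤ n + W := by omega
      refine ⟨?_, ?_⟩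
      · exact hn₀ n (by omega)
      · have h8 := size_P (PP P W t) KP DP N (W * L) hKD (by omega) n4 hWL n (by
          refine le_trans ?_ n6
          have : n + 1 ≤ 3 * N + W * NT + 1 := by omega
          exact_mod_cast this)
        refine h8.trans ?_
        exact pow_le_pow_right₀ (by exact_mod_cast hWL1) (by omega))
    (by
      intro x hx
      rw [mem_image] at hx
      obtain ⟨K, hK, rfl⟩ := hx
      have h1 := (hA2 K hK).1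
      rw [mem_Ioc] at h1 ⊢
      have h2 : W * (M + 1) ≤ W * K := Nat.mul_le_mul_left _ (by omega)
      have h3 : W * K ≤ W * (M + L) := Nat.mul_le_mul_left _ h1.2
      have h5 : W * (M + L) = W * M + W * L := by ring
      have h7 : W * (M + 1) = W * M + W := by ring
      constructor <;> omega)
    (by
      intro x hx p hp hpH hdvd
      rw [mem_image] at hx
      obtain ⟨K, hK, rfl⟩ := hx
      obtain ⟨i, hi⟩ := (PP_dvd P W b t p hp K).1 hdvd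
      refine (hA2 K hK).2.1 p hp ?_ i hi
      refine hpH.trans_lt ?_
      calc ((W * L : ℕ) : ℝ) ^ (ε₁ / 2) ≤ (N : ℝ) ^ (ε₁ / 2) :=
            Real.rpow_le_rpow (by positivity) hWLN (by positivity)
        _ < (N : ℝ) ^ ε₁ := Real.rpow_lt_rpow_of_exponent_lt (by linarith) (by linarith))
    (by
      rw [card_image_of_injective _ (fun K K' hKK => by
        have h1 : W * K + b = W * K' + b := hKK
        have h2 : W * K = W * K' := by omega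
        exact Nat.eq_of_mul_eq_mul_left hW0 h2)]
      refine le_trans ?_ hA1
      have hzWL : z ≤ W * L := by
        have h1 : (z : ℝ) ≤ ((W * L : ℕ) : ℝ) := by
          refine hz1.le.trans (le_trans ?_ hWL)
          exact Real.rpow_le_rpow_of_exponent_le hN1 (by linarith)
        exact_mod_cast h1
      have h1 := PP_V P g hF W b z (W * L) t hzWL
      calc κ * ((W * L : ℕ) * V (fun n => (PP P W t).eval n) 1 (W * L)) ≤
          κ * ((W * L : ℕ) * Vp (fun n => P.eval n) W b z t) := by gcongr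
        _ = c / (2 * 2 ^ 2 ^ k) * (L * Vp (fun n => P.eval n) W b z t) := by
            rw [hκ]
            push_cast
            field_simp)
  have hpt : ∀ j < l, ∃ K ∈ A, W * K + b = a + j * d := by
    intro j hj
    have h1 := had j hj
    rw [mem_image] at h1
    obtain ⟨K, hK, h2⟩ := h1
    exact ⟨K, hK, h2⟩
  obtain ⟨K0, hK0, hK0a⟩ := hpt 0 (by omega)
  rw [zero_mul, add_zero] at hK0a
  obtain ⟨K1, hK1, hK1a⟩ := hpt (l - 1) (by omega)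
  have hb0 := hbds K0 (hA2 K0 hK0).1
  have hb1 := hbds K1 (hA2 K1 hK1).1
  rw [hK0a] at hb0
  rw [hK1a] at hb1
  refine ⟨Hs.image (fun i => W * t i + r), ?_, ?_, a - r, d, by omega, ?_, hd1, ?_, ?_⟩
  · intro h hh
    rw [mem_image] at hh
    obtain ⟨i, _, rfl⟩ := hh
    exact hmem i
  · rw [card_image_of_injective _ (fun i j hij => by
      have h1 : W * t i + r = W * t j + r := hij
      have h2 : W * t i = W * t j := by omega
      exact ht (Nat.eq_of_mul_eq_mul_left hW0 h2))]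
    exact hHs
  · have h1 : a - r + (l - 1) * d ≤ N + ⌊(N : ℝ) ^ θ2⌋₊ := by
      have h2 : W * (L + 1) = W * L + W := by ring
      omega
    have h2 : ((a - r + (l - 1) * d : ℕ) : ℝ) ≤ N + (⌊(N : ℝ) ^ θ2⌋₊ : ℝ) := by
      exact_mod_cast h1
    have h3 : (⌊(N : ℝ) ^ θ2⌋₊ : ℝ) ≤ (N : ℝ) ^ θ2 :=
      Nat.floor_le (by positivity)
    linarith
  · refine hd2.trans ?_
    apply pow_le_pow_left₀ (Real.log_nonneg hWLr)
    exact Real.log_le_log (by linarith) hWLN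
  · intro j hj h hh
    rw [mem_image] at hh
    obtain ⟨i, hi, rfl⟩ := hh
    obtain ⟨K, hK, hKa⟩ := hpt j hj
    have e : a - r + j * d + (W * t i + r) = W * (K + t i) + b := by
      have h1 := pt_eq W b r K (t i) (a + j * d) hKa (by omega)
      omega
    rw [e]
    obtain ⟨hK1', hK2', hK3'⟩ := hA2 K hK
    obtain ⟨hw, hsq⟩ := hK3' i hi
    have hbK := hbds K hK1'
    have hx : W * (K + t i) + b + 1 ≤ 4 * N := by
      have h1 : W * t i ≤ W * NT := Nat.mul_le_mul_left _ (hNT i)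
      have h2 : W * (K + t i) = W * K + W * t i := by ring
      omega
    have hsize : (((G ((W * (K + t i) + b : ℕ) : ℤ)).natAbs : ℕ) : ℝ) ≤
        (N : ℝ) ^ ((dg : ℝ) + 1 / 100) := by
      have h1 := (hGs (W * (K + t i) + b)).2
      have h2 : (((G ((W * (K + t i) + b : ℕ) : ℤ)).natAbs : ℕ) : ℝ) ≤
          CG * ((W * (K + t i) + b + 1 : ℕ) : ℝ) ^ dg := by exact_mod_cast h1
      have h3 : ((W * (K + t i) + b + 1 : ℕ) : ℝ) ≤ 4 * N := by exact_mod_cast hx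
      have h4 : ((W * (K + t i) + b + 1 : ℕ) : ℝ) ^ dg ≤ (4 * N) ^ dg :=
        pow_le_pow_left₀ (by positivity) h3 dg
      calc (((G ((W * (K + t i) + b : ℕ) : ℤ)).natAbs : ℕ) : ℝ) ≤ CG * (4 * N) ^ dg :=
            h2.trans (mul_le_mul_of_nonneg_left h4 (Nat.cast_nonneg _))
        _ = (4 ^ dg * CG) * (N : ℝ) ^ dg := by rw [mul_pow]; ring
        _ ≤ (N : ℝ) ^ ((1 : ℝ) / 100) * (N : ℝ) ^ dg := by gcongr
        _ = _ := by
            rw [← Real.rpow_natCast (N : ℝ) dg, ← Real.rpow_add hN0]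
            congr 1
            ring
    have halm := almost N (by omega) (τ / 4) υ (8 / 9) ((dg : ℝ) + 1 / 100) r0 (by rw [hυ]; linarith)
      hυ0 (by rw [hυ]; linarith) (by norm_num)
      hr0 (G ((W * (K + t i) + b : ℕ) : ℤ)).natAbs
      (Int.natAbs_ne_zero.2 (hGs _).1) hsize hw (fun q hq hqd => hsq q hq (Int.natCast_dvd.2 hqd))
    refine ⟨halm.1, fun p hp hpd => halm.2 p hp (Int.natCast_dvd.1 hpd), fun p hp hpd => ?_⟩
    by_contra hcon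
    push Not at hcon
    exact hK2' p hp hcon i hpd

end Pool.Agent.K3h21.IR
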