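import Pool.Agent.H484R2.Pit
import Pool.Agent.H474R2.GE.RhoHoms
import Pool.Agent.H474R2.PG.HomsRho

/-! The number of the roots of an irreducible polynomial modulo the primes is `1` on average. -/

set_option autoImplicit false

namespace Pool.Agent.K3h21.IR

open Finset Polynomial Filter Topology NumberField
open Pool.Agent.H474R2.PG (rho)

/-- the primes up to `N` -/
abbrev PN (N : ℕ) : Finset ℕ := (range (N + 1)).filter Nat.Prime

theorem pc_tendsto : Tendsto (fun N : ℕ => (Nat.primeCounting N : ℝ)) atTop atTop :=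
  tendsto_natCast_atTop_atTop.comp Nat.tendsto_primeCounting

/-- two counting functions which differ at the primes `≤ B` only -/
theorem compare (a b : ℕ → ℝ) (B : ℕ) (ha : ∀ p, 0 ≤ a p) (hb : ∀ p, 0 ≤ b p)
    (h : ∀ p : ℕ, p.Prime → B < p → a p ≤ b p) (N : ℕ) :
    ∑ p ∈ PN N, a p ≤ ∑ p ∈ PN N, b p + ∑ p ∈ PN B, a p := by
  classical
  rw [← sum_filter_add_sum_filter_not (PN N) (fun p => B < p)]
  apply add_le_add
  · calc ∑ p ∈ (PN N).filter (fun p => B < p), a p ≤ ∑ p ∈ (PN N).filter (fun p => B < p), b p := by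
          apply sum_le_sum
          intro p hp
          rw [mem_filter, mem_filter] at hp
          exact h p hp.1.2 hp.2
      _ ≤ _ := sum_le_sum_of_subset_of_nonneg (filter_subset _ _) fun p _ _ => hb p
  · apply sum_le_sum_of_subset_of_nonneg
    · intro p hp
      rw [mem_filter, mem_filter] at hp
      rw [mem_filter, mem_range]
      exact ⟨by omega, hp.1.2⟩
    · exact fun p _ _ => ha p

theorem rho_pnt (f : ℤ[X]) (hf : Irreducible f) (hd : 0 < f.natDegree) :
    Tendsto (fun N : ℕ => (∑ p ∈ PN N, (rho f p : ℝ)) / (Nat.primeCounting N : ℝ)) atTop (𝓝 1) := by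
  obtain ⟨K1, i1, i1', B1, h1⟩ := Pool.Agent.H474R2.GE.rho_le_homs f hf hd
  obtain ⟨K2, i2, i2', B2, h2⟩ := Pool.Agent.H474R2.PG.homs_le_rho f hf hd
  have p1 := Pool.Agent.H484R2.pit K1
  have p2 := Pool.Agent.H484R2.pit K2
  have u1 := p1.add ((tendsto_const_nhds (x := ∑ p ∈ PN B1, (rho f p : ℝ))).div_atTop pc_tendsto)
  have u2 := p2.sub ((tendsto_const_nhds (x := ∑ p ∈ PN B2, (Nat.card (𝓞 K2 →+* ZMod p) : ℝ))).div_atTop
    pc_tendsto)
  rw [add_zero] at u1
  rw [sub_zero] at u2
  refine tendsto_of_tendsto_of_tendsto_of_le_of_le' u2 u1 ?_ ?_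
  · refine Eventually.of_forall fun N => ?_
    have h := compare (fun p => (Nat.card (𝓞 K2 →+* ZMod p) : ℝ)) (fun p => (rho f p : ℝ)) B2
      (fun p => Nat.cast_nonneg _) (fun p => Nat.cast_nonneg _)
      (fun p hp hB => by exact_mod_cast h2 p hp hB) N
    rw [← sub_div]
    apply div_le_div_of_nonneg_right _ (Nat.cast_nonneg _)
    linarith
  · refine Eventually.of_forall fun N => ?_
    have h := compare (fun p => (rho f p : ℝ)) (fun p => (Nat.card (𝓞 K1 →+* ZMod p) : ℝ)) B1
      (fun p => Nat.cast_nonneg _) (fun p => Nat.cast_nonneg _)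
      (fun p hp hB => by exact_mod_cast h1 p hp hB) N
    rw [← add_div]
    apply div_le_div_of_nonneg_right _ (Nat.cast_nonneg _)
    exact h

/-- the deviation `∑_{p ≤ N} (ρ(p) - 1)` -/
noncomputable def Dev (f : ℤ[X]) (N : ℕ) : ℝ := ∑ p ∈ PN N, ((rho f p : ℝ) - 1)

theorem dev_small (f : ℤ[X]) (hf : Irreducible f) (hd : 0 < f.natDegree) (η : ℝ) (hη : 0 < η) :
    ∃ N0 : ℕ, ∀ N : ℕ, N0 ≤ N → |Dev f N| ≤ η * N / Real.log N := by
  have h1 := rho_pnt f hf hd
  rw [Metric.tendsto_atTop] at h1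
  obtain ⟨N1, hN1⟩ := h1 (η / 2) (by positivity)
  have h2 := Chebyshev.eventually_primeCounting_le (ε := 1 / 2) (by norm_num)
  have h3 := tendsto_natCast_atTop_atTop.eventually h2
  obtain ⟨N2, hN2⟩ := eventually_atTop.1 h3
  refine ⟨max (max N1 N2) 2, fun N hN => ?_⟩
  have e1 := hN1 N (((le_max_left _ _).trans (le_max_left _ _)).trans hN)
  have e2 := hN2 N (((le_max_right _ _).trans (le_max_left _ _)).trans hN)
  have e3 : 2 ≤ N := (le_max_right _ _).trans hN
  rw [Nat.floor_natCast] at e2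
  have hpc : 0 < Nat.primeCounting N := by
    have h := Nat.monotone_primeCounting e3
    have h2 : Nat.primeCounting 2 = 1 := by decide
    omega
  have hpcr : (0 : ℝ) < Nat.primeCounting N := by exact_mod_cast hpc
  have hcard : ((PN N).card : ℝ) = Nat.primeCounting N := by
    have : (PN N).card = Nat.primeCounting N := by
      rw [Nat.primeCounting, Nat.primeCounting', Nat.count_eq_card_filter_range]
    exact_mod_cast this
  have hdev : Dev f N = (∑ p ∈ PN N, (rho f p : ℝ)) - Nat.primeCounting N := by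
    unfold Dev
    rw [sum_sub_distrib, sum_const, nsmul_eq_mul, mul_one, hcard]
  rw [Real.dist_eq] at e1
  have e4 : |Dev f N| ≤ η / 2 * Nat.primeCounting N := by
    have h5 : Dev f N = ((∑ p ∈ PN N, (rho f p : ℝ)) / Nat.primeCounting N - 1) *
        Nat.primeCounting N := by
      rw [hdev]
      field_simp
    rw [h5, abs_mul, abs_of_pos hpcr]
    exact mul_le_mul_of_nonneg_right e1.le hpcr.le
  have hN2r : (2 : ℝ) ≤ N := by exact_mod_cast e3
  have hl : 0 < Real.log N := Real.log_pos (by linarith)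
  have hlog4 : Real.log 4 + 1 / 2 ≤ 2 := by
    have : Real.log 4 = 2 * Real.log 2 := by
      rw [show (4 : ℝ) = 2 ^ 2 by norm_num, Real.log_pow]
      norm_num
    have := Real.log_two_lt_d9
    linarith
  calc |Dev f N| ≤ η / 2 * Nat.primeCounting N := e4
    _ ≤ η / 2 * ((Real.log 4 + 1 / 2) * N / Real.log N) := mul_le_mul_of_nonneg_left e2 (by positivity)
    _ ≤ η / 2 * (2 * N / Real.log N) := by gcongr
    _ = _ := by ring

/-- summation by parts -/
theorem abel (a : ℕ → ℝ) (S : ℕ → ℝ) (hS : ∀ n, S (n + 1) = S n + a (n + 1)) (A B : ℕ) (hAB : A ≤ B) :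
    ∑ n ∈ Ioc A B, a n / n = S B / (B + 1) - S A / (A + 1) + ∑ n ∈ Ioc A B, S n / (n * (n + 1)) := by
  induction B, hAB using Nat.le_induction with
  | base => simp
  | succ B hAB ih =>
    have hb : (0 : ℝ) ≤ B := Nat.cast_nonneg _
    rw [sum_Ioc_succ_top hAB, sum_Ioc_succ_top hAB, ih]
    have h1 : (B : ℝ) + 1 ≠ 0 := by positivity
    have h2 : (B : ℝ) + 1 + 1 ≠ 0 := by positivity
    rw [hS B]
    push_cast
    field_simp
    ring

end Pool.Agent.K3h21.IR
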